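import Mathlib
import Pool.Agent.Y811.SG.Ker

/-!
# First countable group topologies on symmetric groups, without separation axioms

On the group `Perm X` of all permutations of a countable infinite set every first countable group
topology, Hausdorff or not, is one of seven: the four standard ones and the three topologies whose
open sets are the unions of cosets of the finitary even permutations, of the finitary permutations,
and of the whole group. As these topologies are the ones induced by the homomorphisms of `Perm X` to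
first countable (for instance metrizable) topological groups, this classifies those homomorphisms. If
`X` is uncountable then the only metrizable group topology on `Perm X` is the discrete one.

The Hausdorff case on a countable set is the argument of `FourTopologies`. If the topology is not
Hausdorff then the intersection of the neighbourhoods of the identity is a nontrivial normal
subgroup, so it contains the finitary even permutations; if all neighbourhoods contain permutations of
infinite support then these can be corrected by finitary even permutations to a sequence which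
converges to the identity also pointwise, and the argument of the Hausdorff case applies
(`Pool/Agent/Y811/SG/Base.lean`, `Pool/Agent/Y811/SG/Ker.lean`). On an uncountable set, the sets of
fixed points of a decreasing sequence of basic neighbourhoods exhaust the set, and a suitable
permutation moves one of them out of all of them.
-/

set_option autoImplicit false

open Filter Topology Equiv Equiv.Perm

namespace Pool.Agent.Results.MP_8d0ff6_al.SevenTopologies

open Pool.Agent.Helper505.Sinf Pool.Agent.Y811.SG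

/-- The finitary permutations of a set: those moving only finitely many points. -/
def finitary (X : Type) : Subgroup (Perm X) where
  carrier := {g | {n : X | g n ≠ n}.Finite}
  one_mem' := by simp
  mul_mem' := fun hp hq => mul_support_finite hp hq
  inv_mem' := fun hp => inv_support_finite hp

open Classical in
/-- The finitary even permutations of a set: products of an even number of transpositions. -/
def finitaryEven (X : Type) : Subgroup (Perm X) where
  carrier := {g | ∃ l : List (Perm X), (∀ t ∈ l, ∃ a b : X, a ≠ b ∧ t = swap a b) ∧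
    Even l.length ∧ l.prod = g}
  one_mem' := ⟨[], by simp, by simp, rfl⟩
  mul_mem' := by
    rintro a b ⟨l, h1, h2, rfl⟩ ⟨l', h1', h2', rfl⟩
    refine ⟨l ++ l', ?_, ?_, List.prod_append⟩
    · intro t ht
      rcases List.mem_append.mp ht with ht | ht
      · exact h1 t ht
      · exact h1' t ht
    · rw [List.length_append]
      exact h2.add h2'
  inv_mem' := by
    rintro a ⟨l, h1, h2, rfl⟩
    refine ⟨(l.map (fun t => t⁻¹)).reverse, ?_, ?_, by rw [← List.prod_inv_reverse]⟩
    · intro t ht
      rw [List.mem_reverse, List.mem_map] at ht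
      obtain ⟨s, hs, rfl⟩ := ht
      obtain ⟨a, b, hab, rfl⟩ := h1 s hs
      exact ⟨a, b, hab, swap_inv a b⟩
    · simpa using h2

/-- The standard topology of `Perm X` given by a subgroup `N`: a set `U` is open iff for every
`g ∈ U` there is a finite subset `F` of `X` such that `g * h ∈ U` for all `h ∈ N` fixing `F`
pointwise. -/
@[instance_reducible]
def stdTop {X : Type} (N : Subgroup (Perm X)) : TopologicalSpace (Perm X) where
  IsOpen U := ∀ g ∈ U, ∃ F : Finset X, ∀ h ∈ N, (∀ n ∈ F, h n = n) → g * h ∈ U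
  isOpen_univ := fun _ _ => ⟨∅, fun _ _ _ => Set.mem_univ _⟩
  isOpen_inter := by
    classical
    intro U V hU hV g hg
    obtain ⟨F, hF⟩ := hU g hg.1
    obtain ⟨F', hF'⟩ := hV g hg.2
    refine ⟨F ∪ F', fun h hh hfix => ⟨hF h hh ?_, hF' h hh ?_⟩⟩
    · exact fun n hn => hfix n (Finset.mem_union_left _ hn)
    · exact fun n hn => hfix n (Finset.mem_union_right _ hn)
  isOpen_sUnion := by
    intro S hS g hg
    obtain ⟨U, hU, hgU⟩ := hg
    obtain ⟨F, hF⟩ := hS U hU g hgU
    exact ⟨F, fun h hh hfix => ⟨U, hU, hF h hh hfix⟩⟩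

/-- The coset topology of `Perm X` given by a subgroup `N`: the open sets are the unions of left
cosets of `N`. -/
@[instance_reducible]
def cosetTop {X : Type} (N : Subgroup (Perm X)) : TopologicalSpace (Perm X) where
  IsOpen U := ∀ g ∈ U, ∀ h ∈ N, g * h ∈ U
  isOpen_univ := fun _ _ _ _ => Set.mem_univ _
  isOpen_inter := fun _ _ hU hV g hg h hh => ⟨hU g hg.1 h hh, hV g hg.2 h hh⟩
  isOpen_sUnion := by
    intro S hS g hg h hh
    obtain ⟨U, hU, hgU⟩ := hg
    exact ⟨U, hU, hS U hU g hgU h hh⟩

variable {X : Type}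

theorem isOpen_stdTop (N : Subgroup (Perm X)) (U : Set (Perm X)) :
    IsOpen[stdTop N] U ↔ ∀ g ∈ U, ∃ F : Finset X, ∀ h ∈ N, (∀ n ∈ F, h n = n) → g * h ∈ U :=
  Iff.rfl

theorem isOpen_cosetTop (N : Subgroup (Perm X)) (U : Set (Perm X)) :
    IsOpen[cosetTop N] U ↔ ∀ g ∈ U, ∀ h ∈ N, g * h ∈ U :=
  Iff.rfl

theorem mem_nhds_stdTop (N : Subgroup (Perm X)) (g : Perm X) (U : Set (Perm X)) :
    U ∈ @nhds _ (stdTop N) g ↔ ∃ F : Finset X, ∀ h ∈ N, (∀ n ∈ F, h n = n) → g * h ∈ U := by
  let := stdTop N
  rw [mem_nhds_iff]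
  constructor
  · rintro ⟨V, hVU, hV, hg⟩
    obtain ⟨F, hF⟩ := (isOpen_stdTop N V).mp hV g hg
    exact ⟨F, fun h hh hfix => hVU (hF h hh hfix)⟩
  · rintro ⟨F, hF⟩
    refine ⟨{x | ∃ h ∈ N, (∀ n ∈ F, h n = n) ∧ x = g * h}, ?_, ?_, ?_⟩
    · rintro _ ⟨h, h1, h2, rfl⟩
      exact hF h h1 h2
    · rw [isOpen_stdTop]
      rintro _ ⟨h, h1, h2, rfl⟩
      refine ⟨F, fun k k1 k2 => ⟨h * k, N.mul_mem h1 k1, ?_, by rw [mul_assoc]⟩⟩
      intro n hn
      rw [Perm.mul_apply, k2 n hn, h2 n hn]
    · exact ⟨1, N.one_mem, fun _ _ => rfl, (mul_one g).symm⟩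

theorem mem_nhds_cosetTop (N : Subgroup (Perm X)) (g : Perm X) (U : Set (Perm X)) :
    U ∈ @nhds _ (cosetTop N) g ↔ ∀ h ∈ N, g * h ∈ U := by
  let := cosetTop N
  rw [mem_nhds_iff]
  constructor
  · rintro ⟨V, hVU, hV, hg⟩ h hh
    exact hVU ((isOpen_cosetTop N V).mp hV g hg h hh)
  · intro hF
    refine ⟨{x | ∃ h ∈ N, x = g * h}, ?_, ?_, ?_⟩
    · rintro _ ⟨h, h1, rfl⟩
      exact hF h h1
    · rw [isOpen_cosetTop]
      rintro _ ⟨h, h1, rfl⟩ k hk
      exact ⟨h * k, N.mul_mem h1 hk, by rw [mul_assoc]⟩
    · exact ⟨1, N.one_mem, (mul_one g).symm⟩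

/-- `stdTop N` is a metrizable group topology when `N` is normal and `X` is countable. -/
theorem stdTop_metrizable [Countable X] (N : Subgroup (Perm X))
    (hN : ∀ n ∈ N, ∀ g : Perm X, g * n * g⁻¹ ∈ N) :
    @IsTopologicalGroup (Perm X) (stdTop N) _ ∧
      @TopologicalSpace.MetrizableSpace (Perm X) (stdTop N) := by
  classical
  let := stdTop N
  have hgrp : IsTopologicalGroup (Perm X) := by
    apply IsTopologicalGroup.of_nhds_one
    · intro U hU
      obtain ⟨F, hF⟩ := (mem_nhds_stdTop N 1 U).mp hU
      have hA : {h : Perm X | h ∈ N ∧ ∀ n ∈ F, h n = n} ∈ 𝓝 (1 : Perm X) := by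
        apply (mem_nhds_stdTop N 1 _).mpr
        refine ⟨F, fun h h1 h2 => ?_⟩
        rw [one_mul]
        exact ⟨h1, h2⟩
      rw [mem_map, Filter.mem_prod_iff]
      refine ⟨_, hA, _, hA, ?_⟩
      rintro ⟨h, k⟩ ⟨⟨h1, h2⟩, ⟨k1, k2⟩⟩
      have := hF (h * k) (N.mul_mem h1 k1) (by
        intro n hn
        rw [Perm.mul_apply, k2 n hn, h2 n hn])
      rwa [one_mul] at this
    · intro U hU
      obtain ⟨F, hF⟩ := (mem_nhds_stdTop N 1 U).mp hU
      rw [mem_map]
      apply (mem_nhds_stdTop N 1 _).mpr
      refine ⟨F, fun h h1 h2 => ?_⟩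
      rw [one_mul]
      have := hF h⁻¹ (N.inv_mem h1) (by
        intro n hn
        rw [Perm.inv_eq_iff_eq]
        exact (h2 n hn).symm)
      rwa [one_mul] at this
    · intro g
      ext U
      rw [mem_map]
      constructor
      · intro hU
        obtain ⟨F, hF⟩ := (mem_nhds_stdTop N g U).mp hU
        apply (mem_nhds_stdTop N 1 _).mpr
        refine ⟨F, fun h h1 h2 => ?_⟩
        rw [one_mul]
        exact hF h h1 h2
      · intro hU
        obtain ⟨F, hF⟩ := (mem_nhds_stdTop N 1 _).mp hU
        apply (mem_nhds_stdTop N g _).mpr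
        refine ⟨F, fun h h1 h2 => ?_⟩
        have := hF h h1 h2
        rw [one_mul] at this
        exact this
    · intro g U hU
      obtain ⟨F, hF⟩ := (mem_nhds_stdTop N 1 U).mp hU
      rw [mem_map]
      apply (mem_nhds_stdTop N 1 _).mpr
      refine ⟨F.image (fun n => g⁻¹ n), fun h h1 h2 => ?_⟩
      rw [one_mul]
      have := hF (g * h * g⁻¹) (hN h h1 g) (by
        intro n hn
        rw [Perm.mul_apply, Perm.mul_apply, h2 _ (Finset.mem_image_of_mem _ hn), app_inv])
      rwa [one_mul] at this
  refine ⟨hgrp, ?_⟩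
  have hT2 : T2Space (Perm X) := by
    apply IsTopologicalGroup.t2Space_of_one_sep
    intro x hx
    obtain ⟨n, hn⟩ : ∃ n, x n ≠ n := by
      by_contra h
      simp only [not_exists, not_not] at h
      exact hx (Equiv.ext h)
    refine ⟨{g | g n = n}, ?_, hn⟩
    apply (mem_nhds_stdTop N 1 _).mpr
    refine ⟨{n}, fun h h1 h2 => ?_⟩
    rw [one_mul]
    exact h2 n (Finset.mem_singleton_self n)
  have hcg : (𝓝 (1 : Perm X)).IsCountablyGenerated := by
    have e : 𝓝 (1 : Perm X) = ⨅ F : Finset X, 𝓟 {h : Perm X | h ∈ N ∧ ∀ n ∈ F, h n = n} := by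
      apply le_antisymm
      · rw [le_iInf_iff]
        intro F
        rw [le_principal_iff]
        apply (mem_nhds_stdTop N 1 _).mpr
        refine ⟨F, fun h h1 h2 => ?_⟩
        rw [one_mul]
        exact ⟨h1, h2⟩
      · intro U hU
        obtain ⟨F, hF⟩ := (mem_nhds_stdTop N 1 _).mp hU
        apply mem_of_superset (mem_iInf_of_mem F (mem_principal_self _))
        rintro h ⟨h1, h2⟩
        have := hF h h1 h2
        rwa [one_mul] at this
    rw [e]
    infer_instance
  have hu : @TopologicalSpace.PseudoMetrizableSpace (Perm X) _ := by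
    refine ⟨⟨IsTopologicalGroup.rightUniformSpace (Perm X), rfl, ?_⟩⟩
    exact Filter.comap.isCountablyGenerated _ _
  exact { hu with toT0Space := inferInstance }

/-- `cosetTop N` is a first countable group topology when `N` is normal. -/
theorem cosetTop_group (N : Subgroup (Perm X)) (hN : ∀ n ∈ N, ∀ g : Perm X, g * n * g⁻¹ ∈ N) :
    @IsTopologicalGroup (Perm X) (cosetTop N) _ ∧
      @FirstCountableTopology (Perm X) (cosetTop N) := by
  classical
  let := cosetTop N
  refine ⟨?_, ?_⟩
  · apply IsTopologicalGroup.of_nhds_one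
    · intro U hU
      have hF := (mem_nhds_cosetTop N 1 U).mp hU
      have hA : {h : Perm X | h ∈ N} ∈ 𝓝 (1 : Perm X) := by
        apply (mem_nhds_cosetTop N 1 _).mpr
        intro h h1
        rw [one_mul]
        exact h1
      rw [mem_map, Filter.mem_prod_iff]
      refine ⟨_, hA, _, hA, ?_⟩
      rintro ⟨h, k⟩ ⟨h1, k1⟩
      have := hF (h * k) (N.mul_mem h1 k1)
      rwa [one_mul] at this
    · intro U hU
      have hF := (mem_nhds_cosetTop N 1 U).mp hU
      rw [mem_map]
      apply (mem_nhds_cosetTop N 1 _).mpr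
      intro h h1
      rw [one_mul]
      have := hF h⁻¹ (N.inv_mem h1)
      rwa [one_mul] at this
    · intro g
      ext U
      rw [mem_map, mem_nhds_cosetTop, mem_nhds_cosetTop]
      simp
    · intro g U hU
      have hF := (mem_nhds_cosetTop N 1 U).mp hU
      rw [mem_map]
      apply (mem_nhds_cosetTop N 1 _).mpr
      intro h h1
      rw [one_mul]
      have := hF (g * h * g⁻¹) (hN h h1 g)
      rwa [one_mul] at this
  · refine ⟨fun g => ?_⟩
    have e : 𝓝 g = 𝓟 {x | ∃ h ∈ N, x = g * h} := by
      ext U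
      rw [mem_nhds_cosetTop, mem_principal]
      constructor
      · rintro hU _ ⟨h, hh, rfl⟩
        exact hU h hh
      · intro hU h hh
        exact hU ⟨h, hh, rfl⟩
    rw [e]
    infer_instance

section Forward

variable [τ : TopologicalSpace (Perm X)] [IsTopologicalGroup (Perm X)]

theorem eq_stdTop [Infinite X] [T2Space (Perm X)] (N : Subgroup (Perm X))
    (hN : (N : Set (Perm X)) ∈ 𝓝 (1 : Perm X))
    (h : ∀ U ∈ 𝓝 (1 : Perm X), ∃ F : Set X, F.Finite ∧ ∀ p ∈ N, (∀ x ∈ F, p x = x) → p ∈ U) :
    τ = stdTop N := by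
  ext U
  rw [isOpen_stdTop, isOpen_iff_mem_nhds]
  refine forall_congr' fun g => forall_congr' fun _ => ?_
  have e : U ∈ 𝓝 g ↔ (g * ·) ⁻¹' U ∈ 𝓝 (1 : Perm X) := by
    rw [← mem_map, map_mul_left_nhds_one]
  rw [e]
  constructor
  · intro hU
    obtain ⟨F, hF, hFU⟩ := h _ hU
    refine ⟨hF.toFinset, fun p hp hfix => hFU p hp ?_⟩
    intro x hx
    exact hfix x (by simpa using hx)
  · rintro ⟨F, hF⟩
    apply mem_of_superset (inter_mem hN (stab_finite (F : Set X) F.finite_toSet))
    rintro p ⟨hp1, hp2⟩
    exact hF p hp1 hp2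

theorem eq_cosetTop (N : Subgroup (Perm X)) (hN : (N : Set (Perm X)) ∈ 𝓝 (1 : Perm X))
    (h : ∀ U ∈ 𝓝 (1 : Perm X), ∀ p ∈ N, p ∈ U) : τ = cosetTop N := by
  ext U
  rw [isOpen_cosetTop, isOpen_iff_mem_nhds]
  refine forall_congr' fun g => forall_congr' fun _ => ?_
  have e : U ∈ 𝓝 g ↔ (g * ·) ⁻¹' U ∈ 𝓝 (1 : Perm X) := by
    rw [← mem_map, map_mul_left_nhds_one]
  rw [e]
  constructor
  · intro hU p hp
    exact h _ hU p hp
  · intro hF
    apply mem_of_superset hN
    intro p hp
    exact hF p hp

end Forward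

open Classical in
theorem alt_eq : alt X = finitaryEven X := by
  apply le_antisymm
  · unfold alt
    rw [Subgroup.closure_le]
    rintro _ ⟨a, b, c, d, hab, hcd, rfl⟩
    refine ⟨[swap a b, swap c d], ?_, ?_, by simp⟩
    · intro t ht
      simp only [List.mem_cons, List.not_mem_nil, or_false] at ht
      rcases ht with rfl | rfl
      · exact ⟨a, b, hab, rfl⟩
      · exact ⟨c, d, hcd, rfl⟩
    · exact ⟨1, rfl⟩
  · rintro g ⟨l, h1, ⟨m, hm⟩, rfl⟩
    revert l
    induction m with
    | zero =>
      intro l _ hl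
      have : l = [] := List.length_eq_zero_iff.mp (by simpa using hl)
      rw [this]
      exact (alt X).one_mem
    | succ m ih =>
      intro l h1 hl
      match l, h1, hl with
      | [], _, hl => simp at hl
      | [_], _, hl => simp at hl; omega
      | s :: t :: l, h1, hl =>
        rw [List.prod_cons, List.prod_cons, ← mul_assoc]
        apply (alt X).mul_mem
        · obtain ⟨a, b, hab, rfl⟩ := h1 s (by simp)
          obtain ⟨c, d, hcd, rfl⟩ := h1 t (by simp)
          exact Subgroup.subset_closure ⟨a, b, c, d, hab, hcd, rfl⟩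
        · apply ih l
          · exact fun t ht => h1 t (by simp [ht])
          · simp only [List.length_cons] at hl
            omega

/-- The Hausdorff case. -/
theorem forward [Countable X] [Infinite X] [τ : TopologicalSpace (Perm X)]
    [IsTopologicalGroup (Perm X)] [T2Space (Perm X)] [FirstCountableTopology (Perm X)] :
    τ = stdTop ⊥ ∨ τ = stdTop (finitaryEven X) ∨ τ = stdTop (finitary X) ∨ τ = stdTop ⊤ := by
  classical
  by_cases hinf : ∀ V ∈ 𝓝 (1 : Perm X), ∃ g ∈ V, {x | g x ≠ x}.Infinite
  · right; right; right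
    apply eq_stdTop ⊤
    · exact univ_mem
    · intro U hU
      obtain ⟨F, hF, h⟩ := stab_good hinf U hU
      exact ⟨F, hF, fun p _ hp => h p hp⟩
  push Not at hinf
  obtain ⟨U₀, hU₀, hfin⟩ := hinf
  have hfinN : (finitary X : Set (Perm X)) ∈ 𝓝 (1 : Perm X) :=
    mem_of_superset hU₀ (fun g hg => hfin g hg)
  by_cases hdisc : {(1 : Perm X)} ∈ 𝓝 (1 : Perm X)
  · left
    apply eq_stdTop ⊥
    · rw [Subgroup.coe_bot]
      exact hdisc
    · intro U hU
      refine ⟨∅, Set.finite_empty, fun p hp _ => ?_⟩
      rw [Subgroup.mem_bot] at hp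
      rw [hp]
      exact mem_of_mem_nhds hU
  right
  have hnd : ∀ V ∈ 𝓝 (1 : Perm X), ∃ g ∈ V, g ≠ 1 ∧ {x | g x ≠ x}.Finite := by
    intro V hV
    by_contra hcon
    apply hdisc
    apply mem_of_superset (inter_mem hV hfinN)
    rintro g ⟨hg1, hg2⟩
    by_contra hne
    exact hcon ⟨g, hg1, hne, hg2⟩
  by_cases halt : ((alt X : Subgroup (Perm X)) : Set (Perm X)) ∈ 𝓝 (1 : Perm X)
  · left
    apply eq_stdTop (finitaryEven X)
    · rw [← alt_eq]
      exact halt
    · intro U hU
      rw [← alt_eq]
      exact alt_good hnd U hU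
  right; left
  apply eq_stdTop (finitary X)
  · exact hfinN
  · intro U hU
    obtain ⟨V, hV, hVU⟩ := exists_nhds_one_split hU
    obtain ⟨F, hF, hFV⟩ := alt_good hnd V hV
    -- an odd finitary element of `V` fixing `F`
    have hN := inter_mem (inter_mem hV hfinN) (stab_finite F hF)
    obtain ⟨x, ⟨⟨hxV, hxfin⟩, hxF⟩, hxalt⟩ : ∃ x ∈ (V ∩ (finitary X : Set (Perm X))) ∩
        {g : Perm X | ∀ x ∈ F, g x = x}, x ∉ alt X := by
      by_contra hcon
      push Not at hcon
      exact halt (mem_of_superset hN hcon)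
    refine ⟨F, hF, fun p hp hpF => ?_⟩
    have h1V : (1 : Perm X) ∈ V := mem_of_mem_nhds hV
    by_cases hpalt : p ∈ alt X
    · have := hVU 1 h1V p (hFV p hpalt hpF)
      rwa [one_mul] at this
    · have h2 : x⁻¹ * p ∈ alt X := alt_index hxfin hp hxalt hpalt
      have h3 : x⁻¹ * p ∈ V := by
        apply hFV _ h2
        intro y hy
        rw [Perm.mul_apply, hpF y hy, Perm.inv_eq_iff_eq]
        exact (hxF y hy).symm
      have := hVU x hxV _ h3
      rwa [mul_inv_cancel_left] at this

/-- The case which is not Hausdorff. -/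
theorem forward2 [Countable X] [Infinite X] [τ : TopologicalSpace (Perm X)]
    [IsTopologicalGroup (Perm X)] [FirstCountableTopology (Perm X)]
    (hT : ¬ T2Space (Perm X)) :
    τ = cosetTop (finitaryEven X) ∨ τ = cosetTop (finitary X) ∨ τ = cosetTop ⊤ := by
  classical
  obtain ⟨n, hn1, hn⟩ : ∃ n : Perm X, n ≠ 1 ∧ n ∈ ker (Perm X) := by
    by_contra hcon
    apply hT
    apply IsTopologicalGroup.t2Space_of_one_sep
    intro x hx
    by_contra h
    push Not at h
    exact hcon ⟨x, hx, h⟩
  have hle : alt X ≤ ker (Perm X) := alt_le_of_normal _ ker_normal hn hn1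
  by_cases hinf : ∀ V ∈ 𝓝 (1 : Perm X), ∃ g ∈ V, {x | g x ≠ x}.Infinite
  · right; right
    apply eq_cosetTop ⊤ univ_mem
    intro U hU p _
    exact indiscrete hle hinf U hU p
  push Not at hinf
  obtain ⟨U₀, hU₀, hfin⟩ := hinf
  have hfinN : (finitary X : Set (Perm X)) ∈ 𝓝 (1 : Perm X) :=
    mem_of_superset hU₀ (fun g hg => hfin g hg)
  by_cases halt : ((alt X : Subgroup (Perm X)) : Set (Perm X)) ∈ 𝓝 (1 : Perm X)
  · left
    apply eq_cosetTop (finitaryEven X)
    · rw [← alt_eq]
      exact halt
    · intro U hU p hp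
      rw [← alt_eq] at hp
      exact hle hp U hU
  right; left
  apply eq_cosetTop (finitary X) hfinN
  intro U hU p hp
  obtain ⟨V, hV, hVU⟩ := exists_nhds_one_split hU
  obtain ⟨x, ⟨hxV, hxfin⟩, hxalt⟩ : ∃ x ∈ V ∩ (finitary X : Set (Perm X)), x ∉ alt X := by
    by_contra hcon
    push Not at hcon
    exact halt (mem_of_superset (inter_mem hV hfinN) hcon)
  by_cases hpalt : p ∈ alt X
  · exact hle hpalt U hU
  · have h2 : x⁻¹ * p ∈ alt X := alt_index hxfin hp hxalt hpalt
    have := hVU x hxV _ (hle h2 V hV)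
    rwa [mul_inv_cancel_left] at this

/-- The list of the seven topologies. -/
def Seven (τ : TopologicalSpace (Perm X)) : Prop :=
  τ = stdTop ⊥ ∨ τ = stdTop (finitaryEven X) ∨ τ = stdTop (finitary X) ∨ τ = stdTop ⊤ ∨
    τ = cosetTop (finitaryEven X) ∨ τ = cosetTop (finitary X) ∨ τ = cosetTop ⊤

theorem seven [Countable X] [Infinite X] [τ : TopologicalSpace (Perm X)]
    [IsTopologicalGroup (Perm X)] [FirstCountableTopology (Perm X)] : Seven τ := by
  by_cases hT : T2Space (Perm X)
  · rcases forward (X := X) with h | h | h | h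
    · exact Or.inl h
    · exact Or.inr (Or.inl h)
    · exact Or.inr (Or.inr (Or.inl h))
    · exact Or.inr (Or.inr (Or.inr (Or.inl h)))
  · exact Or.inr (Or.inr (Or.inr (Or.inr (forward2 hT))))

theorem bot_normal : ∀ n ∈ (⊥ : Subgroup (Perm X)), ∀ g : Perm X, g * n * g⁻¹ ∈
    (⊥ : Subgroup (Perm X)) := by
  intro n hn g
  rw [Subgroup.mem_bot] at hn
  subst hn
  simp

theorem even_normal : ∀ n ∈ finitaryEven X, ∀ g : Perm X, g * n * g⁻¹ ∈ finitaryEven X := by
  classical
  rintro _ ⟨l, h1, h2, rfl⟩ g
  refine ⟨l.map (fun t => g * t * g⁻¹), ?_, ?_, (conj_list_prod g l).symm⟩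
  · intro t ht
    rw [List.mem_map] at ht
    obtain ⟨s, hs, rfl⟩ := ht
    obtain ⟨a, b, hab, rfl⟩ := h1 s hs
    refine ⟨g a, g b, fun h => hab (g.injective h), ?_⟩
    rw [Equiv.mul_swap_eq_swap_mul]
    group
  · simpa using h2

theorem fin_normal : ∀ n ∈ finitary X, ∀ g : Perm X, g * n * g⁻¹ ∈ finitary X := by
  intro n hn g
  have hn' : {x | n x ≠ x}.Finite := hn
  have : {x | (g * n * g⁻¹) x ≠ x} ⊆ g '' {x | n x ≠ x} := by
    intro x hx
    refine ⟨g⁻¹ x, ?_, app_inv g x⟩
    intro h
    apply hx
    rw [Perm.mul_apply, Perm.mul_apply, h, app_inv]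
  exact (hn'.image g).subset this

theorem top_normal : ∀ n ∈ (⊤ : Subgroup (Perm X)), ∀ g : Perm X, g * n * g⁻¹ ∈
    (⊤ : Subgroup (Perm X)) := fun _ _ _ => Subgroup.mem_top _

/-- **Theorem.** Let `X` be an infinite set and `Perm X` the group of all permutations of `X`. If `X`
is countable, then a topology on `Perm X` is a first countable group topology (Hausdorff or not) if
and only if it is one of the seven topologies `stdTop N`, `N` trivial, finitary even, finitary or
everything, and `cosetTop N`, `N` finitary even, finitary or everything; and it is a metrizable group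
topology if and only if it is one of the four topologies `stdTop N`. If `X` is uncountable, then a
topology on `Perm X` is a metrizable group topology if and only if it is discrete. -/
theorem result :
    (∀ (X : Type) [Countable X] [Infinite X] (τ : TopologicalSpace (Perm X)),
      ((@IsTopologicalGroup (Perm X) τ _ ∧ @FirstCountableTopology (Perm X) τ) ↔
        (τ = stdTop ⊥ ∨ τ = stdTop (finitaryEven X) ∨ τ = stdTop (finitary X) ∨ τ = stdTop ⊤ ∨
          τ = cosetTop (finitaryEven X) ∨ τ = cosetTop (finitary X) ∨ τ = cosetTop ⊤)) ∧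
      ((@IsTopologicalGroup (Perm X) τ _ ∧ @TopologicalSpace.MetrizableSpace (Perm X) τ) ↔
        (τ = stdTop ⊥ ∨ τ = stdTop (finitaryEven X) ∨ τ = stdTop (finitary X) ∨
          τ = stdTop ⊤))) ∧
    (∀ (X : Type) [Uncountable X] (τ : TopologicalSpace (Perm X)),
      (@IsTopologicalGroup (Perm X) τ _ ∧ @TopologicalSpace.MetrizableSpace (Perm X) τ) ↔
        τ = ⊥) := by
  refine ⟨?_, ?_⟩
  · intro X _ _ τ
    refine ⟨?_, ?_⟩
    · constructor
      · rintro ⟨h1, h2⟩
        exact seven
      · have key : ∀ N : Subgroup (Perm X), (∀ n ∈ N, ∀ g : Perm X, g * n * g⁻¹ ∈ N) →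
            @IsTopologicalGroup (Perm X) (stdTop N) _ ∧
              @FirstCountableTopology (Perm X) (stdTop N) := by
          intro N hN
          obtain ⟨h1, h2⟩ := stdTop_metrizable N hN
          refine ⟨h1, ?_⟩
          let := stdTop N
          infer_instance
        rintro (rfl | rfl | rfl | rfl | rfl | rfl | rfl)
        · exact key _ bot_normal
        · exact key _ even_normal
        · exact key _ fin_normal
        · exact key _ top_normal
        · exact cosetTop_group _ even_normal
        · exact cosetTop_group _ fin_normal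
        · exact cosetTop_group _ top_normal
    · constructor
      · rintro ⟨h1, h2⟩
        exact forward
      · rintro (rfl | rfl | rfl | rfl)
        · exact stdTop_metrizable _ bot_normal
        · exact stdTop_metrizable _ even_normal
        · exact stdTop_metrizable _ fin_normal
        · exact stdTop_metrizable _ top_normal
  · intro X _ τ
    constructor
    · rintro ⟨h1, h2⟩
      have h3 := discrete_of_uncountable (X := X)
      have h4 : DiscreteTopology (Perm X) := by
        rw [discreteTopology_iff_isOpen_singleton_one]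
        rw [isOpen_iff_mem_nhds]
        rintro x rfl
        exact h3
      exact h4.eq_bot
    · rintro rfl
      let : TopologicalSpace (Perm X) := ⊥
      have : DiscreteTopology (Perm X) := ⟨rfl⟩
      exact ⟨inferInstance, inferInstance⟩

end Pool.Agent.Results.MP_8d0ff6_al.SevenTopologies
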